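import Mathlib

open Filter Topology

namespace Pool.Agent.MP_bea40e_an

universe u

/-- `F` is holomorphic on the space `X` spread over `ℂⁿ` by `π`. -/
def Hol {n : ℕ} {X : Type u} [TopologicalSpace X] (π : X → Fin n → ℂ) (F : X → ℂ) : Prop :=
  ∀ x, ∃ g : (Fin n → ℂ) → ℂ, AnalyticAt ℂ g (π x) ∧ ∀ᶠ y in 𝓝 x, F y = g (π y)

/-- `(X, π, ι)` is a domain over `ℂⁿ` containing `D` to which all holomorphic functions on `D`
extend uniquely. -/
def IsExt {n : ℕ} (D : Set (Fin n → ℂ)) {X : Type u} [TopologicalSpace X] (π : X → Fin n → ℂ)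
    (ι : D → X) : Prop :=
  IsLocalHomeomorph π ∧ Continuous ι ∧ (∀ z, π (ι z) = z) ∧
    ∀ f : (Fin n → ℂ) → ℂ, DifferentiableOn ℂ f D →
      ∃! F : X → ℂ, Hol π F ∧ ∀ z : D, F (ι z) = f z

/-- `(X, π, ι)` is the envelope of holomorphy of `D`: a maximal extension. -/
def IsEnvelope {n : ℕ} (D : Set (Fin n → ℂ)) {X : Type u} [TopologicalSpace X]
    (π : X → Fin n → ℂ) (ι : D → X) : Prop :=
  IsExt D π ι ∧ ∀ (Y : Type u) [TopologicalSpace Y] [T2Space Y] [ConnectedSpace Y]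
    (π' : Y → Fin n → ℂ) (ι' : D → Y), IsExt D π' ι' →
      ∃ φ : Y → X, Continuous φ ∧ (∀ y, π (φ y) = π' y) ∧ ∀ z, φ (ι' z) = ι z

end Pool.Agent.MP_bea40e_an
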